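import Pool.Agent.H185.FD.Fin

/-!
# Projective involutions on the tangent lines of a circle: deformations of concentric circles

`γ` is the unit circle, `IsCollar Y` (pool module `H719R2.PIB.Defs`) says that the level sets
`{Y = c}`, `0 ≤ c ≤ 1`, are closed convex curves foliating a collar of `γ`, and
`HasInvolutions Y v` says that the involution on the tangent line at `exp (i Θ)` is the projective
involution `x ↦ -x / (1 - v(Θ) x)`; `v = 0` for concentric circles.  For the pencil of conics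
`|z|² - 1 = s W(z)`, `W = 1 + Re (η z + ζ z²)`, one has `v = -W'/W =: vP η ζ`.  Every `v` is of
the form `-W'/W` with a positive function `W` on the circle.

(1) Families with `W` analytic in the parameter `τ` and `W = 1` for `τ = 0`: if the collars contain
a disc of radius greater than two, all leaves are ellipses of one pencil.
(2) First order rigidity at the pencils, for arbitrary sequences of foliations.
(3) For collars of any fixed width the first order terms are trigonometric polynomials of bounded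
degree.
-/

open Filter Topology
open Pool.Agent.H719R2.PIB (IsCollar)
open Pool.Agent.H185.FD

namespace Pool.Agent.Results.MP_ae5b4e_an.AnalyticDeformations

theorem result :
    (∀ (b b' : ℕ → ℝ → ℝ) (C r R : ℝ) (T : Set ℝ) (Y : ℝ → ℂ → ℝ), 0 < r → 2 < R →
      (∀ i Θ, HasDerivAt (b i) (b' i Θ) Θ) → (∀ i Θ, |b i Θ| * r ^ i ≤ C) →
      (∀ i Θ, |b' i Θ| * r ^ i ≤ C) → (∀ Θ, b 0 Θ = 1) → T ⊆ Set.Ioo 0 r →
      (0 : ℝ) ∈ closure T → (∀ τ ∈ T, IsCollar (Y τ)) →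
      (∀ τ ∈ T, ∀ z : ℂ, ‖z‖ ≤ R → Y τ z ≤ 1) → (∀ τ ∈ T, ∀ Θ, 0 < ser b τ Θ) →
      (∀ τ ∈ T, HasInvolutions (Y τ) (fun Θ => -ser b' τ Θ / ser b τ Θ)) →
      ∀ τ ∈ T, ∃ (κ : ℝ) (η ζ : ℂ), (∀ p : ℂ, ‖p‖ = 1 → 0 < κ + (η * p + ζ * p ^ 2).re) ∧
        ∀ c, 0 ≤ c → c ≤ 1 → ∃ s : ℝ, 0 ≤ s ∧ s * ‖ζ‖ < 1 ∧
          {z : ℂ | Y τ z = c} =
            {z : ℂ | Complex.normSq z - 1 = s * (κ + (η * z + ζ * z ^ 2).re)}) ∧
    (∀ (Y : ℕ → ℂ → ℝ) (v : ℕ → ℝ → ℝ) (w : ℝ → ℝ) (ε : ℕ → ℝ) (R : ℝ) (η ζ : ℕ → ℂ),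
      (∀ n, IsCollar (Y n)) → (∀ n, HasInvolutions (Y n) (v n)) → 2 < R →
      (∀ n (z : ℂ), ‖z‖ ≤ R → Y n z ≤ 1) → TendstoUniformly v (fun _ => 0) atTop →
      Tendsto η atTop (𝓝 0) → Tendsto ζ atTop (𝓝 0) → (∀ n, 0 < ε n) →
      TendstoUniformly (fun n Θ => (v n Θ - vP (η n) (ζ n) Θ) / ε n) w atTop →
      ∃ α β : ℂ, ∀ Θ : ℝ, w Θ =
        (α * Complex.exp (Θ * Complex.I) + β * Complex.exp (Θ * Complex.I) ^ 2).re) ∧
    (∀ (Y : ℕ → ℂ → ℝ) (v : ℕ → ℝ → ℝ) (w : ℝ → ℝ) (ε : ℕ → ℝ) (R : ℝ) (q₀ : ℕ),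
      (∀ n, IsCollar (Y n)) → (∀ n, HasInvolutions (Y n) (v n)) →
      (∀ n (z : ℂ), ‖z‖ ≤ R → Y n z ≤ 1) → 3 ≤ q₀ → 1 < R * Real.cos (Real.pi / q₀) →
      (∀ n, 0 < ε n) → Tendsto ε atTop (𝓝 0) →
      TendstoUniformly (fun n Θ => v n Θ / ε n) w atTop →
      ∃ c : ℤ → ℂ, c 0 = 0 ∧ ∀ Θ : ℝ, (w Θ : ℂ) =
        ∑ n ∈ Finset.Ioo (-(q₀ : ℤ)) q₀, c n * Complex.exp (n * Θ * Complex.I)) := by
  refine ⟨?_, ?_, ?_⟩
  · intro b b' C r R T Y hr hR2 hd hb hb' hb0 hT hT0 hY hR hpos H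
    exact analytic_family hr hR2 hd hb hb' hb0 hT hT0 hY hR hpos H
  · intro Y v w ε R η ζ hY H hR2 hR hv0 hη hζ hε hw
    obtain ⟨c, hc0, hc⟩ := relative_limit hY H hR2 hR hv0 hη hζ hε hw
    exact real_form hc0 hc
  · intro Y v w ε R q₀ hY hv hR hq hRq hε hε0 hw
    refine trig (w_cont hY hv hw) (w_per hY hv hw) (by omega) fun q hq' Θ => ?_
    refine limit_sum hY hv hw hR hε hε0 (by omega) ?_ Θ
    have h1 : Real.cos (Real.pi / q₀) ≤ Real.cos (Real.pi / q) := by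
      have hq3 : (3 : ℝ) ≤ q₀ := by exact_mod_cast hq
      have hqq : (q₀ : ℝ) ≤ q := by exact_mod_cast hq'
      have hpi := Real.pi_pos
      apply Real.cos_le_cos_of_nonneg_of_le_pi
      · positivity
      · rw [div_le_iff₀ (by linarith)]
        nlinarith
      · exact div_le_div_of_nonneg_left hpi.le (by linarith) hqq
    have hcos : 0 < Real.cos (Real.pi / q₀) := by
      have hq3 : (3 : ℝ) ≤ q₀ := by exact_mod_cast hq
      have hpi := Real.pi_pos
      apply Real.cos_pos_of_mem_Ioo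
      constructor
      · have : 0 < Real.pi / q₀ := by positivity
        linarith
      · apply div_lt_div_of_pos_left hpi (by norm_num)
        linarith
    have hRpos : 0 < R := by
      by_contra hcon
      push Not at hcon
      have := mul_nonpos_of_nonpos_of_nonneg hcon hcos.le
      linarith
    nlinarith

end Pool.Agent.Results.MP_ae5b4e_an.AnalyticDeformations
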