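import Pool.Agent.TH242.MK.OutReg

/-!
# Affine involutions on the tangent lines: few integrable ovals in a family

The case of MP_ae5b4e_an in which all `σ_p` are the point reflections in `p` (outer billiards) and
the leaves are the level sets of a real analytic function near `γ`, for several ovals at once.
Uses the modules `TH242.MK` of the pool.
-/

open Complex Set Metric

namespace Pool.Agent.Results.MP_ae5b4e_an.OuterFamily

/-- `γ` is a closed plane curve with positive continuous radius of curvature `ρ`, parametrised by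
its normal angle: `γ'(s) = ρ(s) i e^{is}`; the outer unit normal at `γ s` is `e^{is}`. -/
def IsOval (γ : ℝ → ℂ) (ρ : ℝ → ℝ) : Prop :=
  (∀ s, γ (s + 2 * Real.pi) = γ s) ∧ Continuous ρ ∧ (∀ s, 0 < ρ s) ∧
    ∀ s : ℝ, HasDerivAt γ ((ρ s : ℂ) * I * cexp (s * I)) s

/-- the point at signed distance `δ` from `γ s` on the tangent line at `γ s` -/
noncomputable def tangentPoint (γ : ℝ → ℂ) (s δ : ℝ) : ℂ := γ s + δ * (I * cexp (s * I))

/-- `K(x, y)` is a nonconstant real analytic first integral of the outer billiard about `γ` near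
`γ`: it is analytic and nonconstant on a connected neighbourhood `U` of `γ`, and for every `s` it
has the same value at the two points at distance `δ` from `γ s` on the tangent line at `γ s`, which
the reflection in `γ s` exchanges, for all small `δ > 0`. -/
def IsIntegralNear (γ : ℝ → ℂ) (K : ℝ → ℝ → ℝ) (U : Set (ℝ × ℝ)) : Prop :=
  IsOpen U ∧ IsPreconnected U ∧ (∀ s, ((γ s).re, (γ s).im) ∈ U) ∧
    AnalyticOnNhd ℝ (Function.uncurry K) U ∧
    (∀ s : ℝ, ∃ ε > 0, ∀ δ : ℝ, 0 < δ → δ < ε →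
      K (tangentPoint γ s δ).re (tangentPoint γ s δ).im
        = K (tangentPoint γ s (-δ)).re (tangentPoint γ s (-δ)).im) ∧
    ∃ z ∈ U, ∃ w ∈ U, K z.1 z.2 ≠ K w.1 w.2

/-- A motion along the oval: the normal angle at time `t` is `θ t`; the angular velocity `θ'` of
the normal and the speed `ρ(θ) θ'` are the restrictions to `ℝ` of the entire functions `w` and `v`
of period `2π`. -/
def IsEntireMotion (ρ : ℝ → ℝ) (θ : ℝ → ℝ) (v w : ℂ → ℂ) : Prop :=
  Function.Surjective θ ∧ Differentiable ℂ v ∧ Differentiable ℂ w ∧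
    (∀ z, v (z + 2 * Real.pi) = v z) ∧ (∀ z, w (z + 2 * Real.pi) = w z) ∧
    (∀ t : ℝ, HasDerivAt (fun t : ℝ => (θ t : ℂ)) (w t) t) ∧ ∀ t : ℝ, v t = ρ (θ t) * w t

/-- `f` is entire and `‖f z‖ ≤ exp (A exp (σ ‖z‖))` for some `0 ≤ σ < 1` and `A`.  For
`f(z) = F(e^{iz})`, `F` holomorphic in the punctured plane, this holds if `F` has order less than
one at `0` and at `∞`. -/
def IsSmall (f : ℂ → ℂ) : Prop :=
  Differentiable ℂ f ∧ ∃ σ A : ℝ, 0 ≤ σ ∧ σ < 1 ∧ 0 ≤ A ∧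
    ∀ z : ℂ, ‖f z‖ ≤ Real.exp (A * Real.exp (σ * ‖z‖))

lemma tangentPoint_re (γ : ℝ → ℂ) (s δ : ℝ) :
    (tangentPoint γ s δ).re = (γ s).re - δ * Real.sin s := by
  simp [tangentPoint, Complex.exp_ofReal_mul_I_re, Complex.exp_ofReal_mul_I_im]
  ring

lemma tangentPoint_im (γ : ℝ → ℂ) (s δ : ℝ) :
    (tangentPoint γ s δ).im = (γ s).im + δ * Real.cos s := by
  simp [tangentPoint, Complex.exp_ofReal_mul_I_re, Complex.exp_ofReal_mul_I_im]

lemma oInt {γ : ℝ → ℂ} {K : ℝ → ℝ → ℝ} {U : Set (ℝ × ℝ)} (h : IsIntegralNear γ K U) :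
    H719FX.OInt γ K U := by
  obtain ⟨h1, h2, h3, h4, h5, z, hz, w, hw, hne⟩ := h
  refine ⟨h1, h2, h3, h4, fun s => ?_, ?_⟩
  · obtain ⟨ε, hε, h⟩ := h5 s
    refine ⟨ε, hε, fun δ hδ hδ' => ?_⟩
    have := h δ hδ hδ'
    simpa [tangentPoint_re, tangentPoint_im, sub_eq_add_neg] using this
  · rintro ⟨c, hc⟩
    exact hne ((hc z hz).trans (hc w hw).symm)


/-- finitely many small functions have a common exponent -/
lemma common {ι : Type} [Finite ι] {f : ι → ℂ → ℂ} (hf : ∀ i, IsSmall (f i)) :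
    ∃ σ : ℝ, 0 ≤ σ ∧ σ < 1 ∧ ∀ τ : ℝ, σ ≤ τ → ∀ i, TH242.MK.Tm τ (f i) := by
  classical
  have := Fintype.ofFinite ι
  choose h1 s A h2 h3 h4 h5 using hf
  obtain ⟨σ, hσ⟩ : ∃ σ : ℝ, 0 ≤ σ ∧ σ < 1 ∧ ∀ i, s i ≤ σ := by
    rcases isEmpty_or_nonempty ι with hi | hi
    · exact ⟨0, le_rfl, one_pos, fun i => (hi.false i).elim⟩
    · refine ⟨Finset.univ.sup' Finset.univ_nonempty s, ?_, ?_, fun i => ?_⟩
      · exact (h2 hi.some).trans (Finset.le_sup' s (Finset.mem_univ _))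
      · rw [Finset.sup'_lt_iff]
        exact fun i _ => h3 i
      · exact Finset.le_sup' s (Finset.mem_univ _)
  refine ⟨σ, hσ.1, hσ.2.1, fun τ hτ i => ⟨h1 i, A i, h4 i, fun z => (h5 i z).trans ?_⟩⟩
  have h6 : s i ≤ τ := (hσ.2.2 i).trans hτ
  have h7 := h4 i
  gcongr

/-- Consider `n` ovals `γ_j` that are not circles, each run through by an entire motion, whose
radii of curvature at time `t` are pairwise nonproportional functions `r_j(t) = ρ_j(θ_j(t))`, and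
satisfy `b_j r_j = Σ_{i < k} c_{ji} u_i + q_j` with `k` arbitrary functions `u_i` and small
functions `b_j ≢ 0`, `c_{ji}`, `q_j`.  If all outer billiards about the `γ_j` have nonconstant real
analytic first integrals near `γ_j`, then `n ≤ k`. -/
theorem result (k n : ℕ) (γ : Fin n → ℝ → ℂ) (ρ θ : Fin n → ℝ → ℝ) (v w : Fin n → ℂ → ℂ)
    (h : ∀ j, IsOval (γ j) (ρ j)) (hm : ∀ j, IsEntireMotion (ρ j) (θ j) (v j) (w j))
    (hnc : ∀ j, ¬ ∃ c : ℝ, ∀ s, ρ j s = c)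
    (hnp : ∀ i j, i ≠ j → ¬ ∃ c : ℝ, ∀ t, ρ i (θ i t) = c * ρ j (θ j t))
    (u : Fin k → ℝ → ℂ) (b q : Fin n → ℂ → ℂ) (c : Fin n → Fin k → ℂ → ℂ)
    (hb : ∀ j, IsSmall (b j)) (hc : ∀ j i, IsSmall (c j i)) (hq : ∀ j, IsSmall (q j))
    (hb0 : ∀ j, ∃ z, b j z ≠ 0)
    (hρ : ∀ j, ∀ t : ℝ, b j t * ρ j (θ j t) = ∑ i, c j i t * u i t + q j t)
    (K : Fin n → ℝ → ℝ → ℝ) (U : Fin n → Set (ℝ × ℝ))
    (hK : ∀ j, IsIntegralNear (γ j) (K j) (U j)) : n ≤ k := by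
  obtain ⟨s1, p1, p2, p3⟩ := common hb
  obtain ⟨s2, q1, q2, q3⟩ := common hq
  obtain ⟨s3, r1, r2, r3⟩ := common (f := fun ji : Fin n × Fin k => c ji.1 ji.2)
    fun ji => hc ji.1 ji.2
  obtain ⟨σ, hσ⟩ : ∃ σ : ℝ, σ = max s1 (max s2 s3) := ⟨_, rfl⟩
  have t1 : s1 ≤ σ := by rw [hσ]; exact le_max_left _ _
  have t2 : s2 ≤ σ := by rw [hσ]; exact (le_max_left _ _).trans (le_max_right _ _)
  have t3 : s3 ≤ σ := by rw [hσ]; exact (le_max_right _ _).trans (le_max_right _ _)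
  have hσ1 : σ < 1 := by rw [hσ]; exact max_lt p2 (max_lt q2 r2)
  have hExt : ∀ j, ∃ P : ℂ → ℂ, TH242.MK.Ext (fun t => ρ j (θ j t)) P := by
    intro j
    obtain ⟨m1, m2, m3, m4, m5, m6, m7⟩ := hm j
    exact TH242.MK.outer_ext (γ := γ j) (ρ := ρ j)
      ⟨(h j).1, (h j).2.1, (h j).2.2.1, (h j).2.2.2⟩ (oInt (hK j))
      (⟨m2, m3, m4, m5, m1, m6, m7⟩ : TH242.MK.Dat (γ j) (ρ j) (θ j) (v j) (w j))
  choose P hP using hExt
  refine TH242.MK.few (ρ := fun j t => ρ j (θ j t)) (R := P) hP (fun j => ?_) hnp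
    (p1.trans t1) hσ1 u (fun j => p3 σ t1 j) hb0 (fun j i => r3 σ t3 (j, i))
    (fun j => q3 σ t2 j) hρ
  rintro ⟨c0, hc0⟩
  refine hnc j ⟨c0, fun s => ?_⟩
  obtain ⟨t, rfl⟩ := (hm j).1 s
  exact hc0 t

end Pool.Agent.Results.MP_ae5b4e_an.OuterFamily
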