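import Pool.Agent.TH242.MK.OutReg
import Pool.Agent.W743.BE.Fin
import Pool.Agent.W743.BE.OutFin

/-!
# Affine involutions on the tangent lines of ovals with small intrinsic data

The case of MP_ae5b4e_an in which all `σ_p` are the point reflections in `p` (outer billiards), the
leaves are the level sets of a real analytic function near `γ`, and `γ` is described by its speed
and the angular velocity of its normal.  Uses the modules `TH242.MK` and `W743.BE` of the pool.
-/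

open Complex Set Metric

namespace Pool.Agent.Results.MP_ae5b4e_an.OuterIntrinsic

/-- `γ` is a closed plane curve with positive continuous radius of curvature `ρ`, parametrised by
its normal angle: `γ'(s) = ρ(s) i e^{is}`; the outer unit normal at `γ s` is `e^{is}`. -/
def IsOval (γ : ℝ → ℂ) (ρ : ℝ → ℝ) : Prop :=
  (∀ s, γ (s + 2 * Real.pi) = γ s) ∧ Continuous ρ ∧ (∀ s, 0 < ρ s) ∧
    ∀ s : ℝ, HasDerivAt γ ((ρ s : ℂ) * I * cexp (s * I)) s

/-- the point at signed distance `δ` from `γ s` on the tangent line at `γ s` -/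
noncomputable def tangentPoint (γ : ℝ → ℂ) (s δ : ℝ) : ℂ := γ s + δ * (I * cexp (s * I))

/-- `K(x, y)` is a nonconstant real analytic first integral of the outer billiard about `γ` near
`γ`: it is analytic and nonconstant on a connected neighbourhood `U` of `γ`, and for every `s` it
has the same value at the two points at distance `δ` from `γ s` on the tangent line at `γ s`, which
the reflection in `γ s` exchanges, for all small `δ > 0`. -/
def IsIntegralNear (γ : ℝ → ℂ) (K : ℝ → ℝ → ℝ) (U : Set (ℝ × ℝ)) : Prop :=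
  IsOpen U ∧ IsPreconnected U ∧ (∀ s, ((γ s).re, (γ s).im) ∈ U) ∧
    AnalyticOnNhd ℝ (Function.uncurry K) U ∧
    (∀ s : ℝ, ∃ ε > 0, ∀ δ : ℝ, 0 < δ → δ < ε →
      K (tangentPoint γ s δ).re (tangentPoint γ s δ).im
        = K (tangentPoint γ s (-δ)).re (tangentPoint γ s (-δ)).im) ∧
    ∃ z ∈ U, ∃ w ∈ U, K z.1 z.2 ≠ K w.1 w.2

/-- A motion along the oval: the normal angle at time `t` is `θ t`; the angular velocity `θ'` of
the normal and the speed `ρ(θ) θ'` are the restrictions to `ℝ` of the entire functions `w` and `v`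
of period `2π`. -/
def IsEntireMotion (ρ : ℝ → ℝ) (θ : ℝ → ℝ) (v w : ℂ → ℂ) : Prop :=
  Function.Surjective θ ∧ Differentiable ℂ v ∧ Differentiable ℂ w ∧
    (∀ z, v (z + 2 * Real.pi) = v z) ∧ (∀ z, w (z + 2 * Real.pi) = w z) ∧
    (∀ t : ℝ, HasDerivAt (fun t : ℝ => (θ t : ℂ)) (w t) t) ∧ ∀ t : ℝ, v t = ρ (θ t) * w t

/-- `f` is entire and `‖f z‖ ≤ exp (A exp (σ ‖z‖))` for some `0 ≤ σ < 1` and `A`.  For
`f(z) = F(e^{iz})`, `F` holomorphic in the punctured plane, this holds if `F` has order less than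
one at `0` and at `∞`. -/
def IsSmall (f : ℂ → ℂ) : Prop :=
  Differentiable ℂ f ∧ ∃ σ A : ℝ, 0 ≤ σ ∧ σ < 1 ∧ 0 ≤ A ∧
    ∀ z : ℂ, ‖f z‖ ≤ Real.exp (A * Real.exp (σ * ‖z‖))

lemma tangentPoint_re (γ : ℝ → ℂ) (s δ : ℝ) :
    (tangentPoint γ s δ).re = (γ s).re - δ * Real.sin s := by
  simp [tangentPoint, Complex.exp_ofReal_mul_I_re, Complex.exp_ofReal_mul_I_im]
  ring

lemma tangentPoint_im (γ : ℝ → ℂ) (s δ : ℝ) :
    (tangentPoint γ s δ).im = (γ s).im + δ * Real.cos s := by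
  simp [tangentPoint, Complex.exp_ofReal_mul_I_re, Complex.exp_ofReal_mul_I_im]

lemma oInt {γ : ℝ → ℂ} {K : ℝ → ℝ → ℝ} {U : Set (ℝ × ℝ)} (h : IsIntegralNear γ K U) :
    H719FX.OInt γ K U := by
  obtain ⟨h1, h2, h3, h4, h5, z, hz, w, hw, hne⟩ := h
  refine ⟨h1, h2, h3, h4, fun s => ?_, ?_⟩
  · obtain ⟨ε, hε, h⟩ := h5 s
    refine ⟨ε, hε, fun δ hδ hδ' => ?_⟩
    have := h δ hδ hδ'
    simpa [tangentPoint_re, tangentPoint_im, sub_eq_add_neg] using this
  · rintro ⟨c, hc⟩
    exact hne ((hc z hz).trans (hc w hw).symm)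

/-- two small functions have a common exponent -/
lemma common {b q : ℂ → ℂ} (hb : IsSmall b) (hq : IsSmall q) :
    ∃ σ : ℝ, 0 ≤ σ ∧ σ < 1 ∧ TH242.MK.Tm σ b ∧ TH242.MK.Tm σ q := by
  obtain ⟨b1, s1, A1, h1, h2, h3, h4⟩ := hb
  obtain ⟨q1, s2, A2, k1, k2, k3, k4⟩ := hq
  refine ⟨max s1 s2, le_max_of_le_left h1, max_lt h2 k2, ⟨b1, A1, h3, fun z => ?_⟩,
    ⟨q1, A2, k3, fun z => ?_⟩⟩
  · refine (h4 z).trans ?_
    gcongr
    exact le_max_left _ _
  · refine (k4 z).trans ?_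
    gcongr
    exact le_max_right _ _

/-- the integral on the circle -/
lemma on_circle {γ : ℝ → ℂ} {ρ : ℝ → ℝ} (h : IsOval γ ρ) {K : ℝ → ℝ → ℝ} {U : Set (ℝ × ℝ)}
    (hK : IsIntegralNear γ K U) {c : ℝ} (hc : ∀ s, ρ s = c) :
    ∃ (z : ℂ) (r : ℝ), 0 < r ∧ Set.range γ = sphere z r ∧
      ∃ R > r, ∀ t : ℝ, r ≤ t → t < R → ∃ κ : ℝ, ∀ x ∈ sphere z t,
        (x.re, x.im) ∈ U ∧ K x.re x.im = κ := by
  obtain ⟨h1, h2, h3, h4⟩ := h
  have hc0 : 0 < c := by rw [← hc 0]; exact h3 0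
  have hγ : ∀ s : ℝ, γ s = γ 0 - c + c * cexp (s * I) := by
    intro s
    refine TH242.MK.eq_real (f := γ) (g := fun s : ℝ => γ 0 - c + c * cexp (s * I))
      (f' := fun s => (c : ℂ) * I * cexp (s * I)) (fun s => ?_) (fun s => ?_) ?_ s
    · have := h4 s
      rwa [hc s] at this
    · have h2 : HasDerivAt (fun s : ℝ => cexp ((s : ℂ) * I)) (cexp (s * I) * (1 * I)) s :=
        (((hasDerivAt_id s).ofReal_comp).mul_const I).cexp
      refine ((h2.const_mul (c : ℂ)).const_add (γ 0 - c)).congr_deriv ?_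
      ring
    · simp
  -- the complex motion
  have hZd : Differentiable ℂ fun t : ℂ => γ 0 - c + c * cexp (t * I) := by fun_prop
  have pZ : W743.BE.Per fun t : ℂ => γ 0 - c + c * cexp (t * I) := by
    intro t
    have h5 : cexp ((t + 2 * Real.pi) * I) = cexp (t * I) := by
      have : (t + 2 * Real.pi) * I = t * I + 2 * Real.pi * I := by ring
      rw [this]
      exact Complex.exp_periodic _
    simp only [h5]
  have gZ : W743.BE.Gr (1 / 2) fun t : ℂ => γ 0 - c + c * cexp (t * I) := by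
    refine ⟨‖γ 0 - c‖ + c + 2, by positivity, fun t => ?_⟩
    have hn : ‖cexp (t * I)‖ = Real.exp (-t.im) := by
      rw [Complex.norm_exp]
      simp
    have e0 : Real.exp (-t.im) ≤ Real.exp |t.im| := Real.exp_le_exp.2 (neg_le_abs _)
    have e1 : (1 : ℝ) ≤ Real.exp |t.im| := Real.one_le_exp (abs_nonneg _)
    have e2 : ‖γ 0 - c + c * cexp (t * I)‖ ≤ (‖γ 0 - c‖ + c) * Real.exp |t.im| := by
      calc ‖γ 0 - c + c * cexp (t * I)‖ ≤ ‖γ 0 - c‖ + ‖(c : ℂ) * cexp (t * I)‖ :=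
            norm_add_le _ _
        _ = ‖γ 0 - c‖ + c * Real.exp (-t.im) := by
            rw [norm_mul, hn, Complex.norm_real, Real.norm_eq_abs, abs_of_pos hc0]
        _ ≤ ‖γ 0 - c‖ * Real.exp |t.im| + c * Real.exp |t.im| := by
            gcongr
            exact le_mul_of_one_le_right (norm_nonneg _) e1
        _ = _ := by ring
    set E : ℝ := Real.exp (1 / 2 * |t.im|) with hE
    have hE1 : 1 ≤ E := Real.one_le_exp (by positivity)
    have e3 : |t.im| ≤ 2 * E := by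
      have := Real.add_one_le_exp (1 / 2 * |t.im|)
      rw [← hE] at this
      linarith
    have e4 : ‖γ 0 - c‖ + c ≤ Real.exp ((‖γ 0 - c‖ + c) * E) := by
      have h5 := Real.add_one_le_exp ((‖γ 0 - c‖ + c) * E)
      have h6 : ‖γ 0 - c‖ + c ≤ (‖γ 0 - c‖ + c) * E :=
        le_mul_of_one_le_right (by positivity) hE1
      linarith
    calc ‖γ 0 - c + c * cexp (t * I)‖ ≤ (‖γ 0 - c‖ + c) * Real.exp |t.im| := e2
      _ ≤ Real.exp ((‖γ 0 - c‖ + c) * E) * Real.exp (2 * E) := by gcongr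
      _ = Real.exp ((‖γ 0 - c‖ + c + 2) * E) := by rw [← Real.exp_add]; congr 1; ring
  obtain ⟨c', a, b, d, ha, hdet, hr, η, hη, hl⟩ := Pool.Agent.W743.BE.main_out
    ⟨h1, h2, h3, h4⟩ (oInt hK) (by norm_num : (0 : ℝ) ≤ 1 / 2) (by norm_num) hZd pZ gZ
    continuous_id Function.surjective_id hγ
  -- the range
  obtain ⟨z0, hz0⟩ : ∃ z0 : ℂ, z0 = γ 0 - c := ⟨_, rfl⟩
  have hrange : Set.range γ = sphere z0 c := by
    ext z
    constructor
    · rintro ⟨s, rfl⟩
      rw [mem_sphere, dist_eq_norm, hγ s, hz0, add_sub_cancel_left, norm_mul, Complex.norm_real,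
        Real.norm_eq_abs, abs_of_pos hc0, Complex.norm_exp_ofReal_mul_I, mul_one]
    · intro hz
      rw [mem_sphere, dist_eq_norm, hz0] at hz
      refine ⟨Complex.arg (z - (γ 0 - c)), ?_⟩
      have h5 := Complex.norm_mul_exp_arg_mul_I (z - (γ 0 - c))
      rw [hz] at h5
      rw [hγ, h5]
      ring
  have hpt : ∀ p q : ℝ, p ^ 2 + q ^ 2 = 1 →
      a * (z0.re + c * p - c'.re) ^ 2
        + 2 * b * (z0.re + c * p - c'.re) * (z0.im + c * q - c'.im)
        + d * (z0.im + c * q - c'.im) ^ 2 = 1 := by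
    intro p q hpq
    have h5 : z0 + c * (p + q * I) ∈ Set.range γ := by
      rw [hrange, mem_sphere, dist_eq_norm, add_sub_cancel_left, norm_mul, Complex.norm_real,
        Real.norm_eq_abs, abs_of_pos hc0]
      have h6 : ‖(p : ℂ) + q * I‖ = 1 := by
        rw [Complex.norm_add_mul_I, hpq, Real.sqrt_one]
      rw [h6, mul_one]
    rw [hr] at h5
    simpa using h5
  have q1 := hpt 1 0 (by norm_num)
  have q2 := hpt (-1) 0 (by norm_num)
  have q3 := hpt 0 1 (by norm_num)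
  have q4 := hpt 0 (-1) (by norm_num)
  have q5 := hpt (3 / 5) (4 / 5) (by norm_num)
  have hX1 : a * (z0.re - c'.re) + b * (z0.im - c'.im) = 0 := by
    have : c * (a * (z0.re - c'.re) + b * (z0.im - c'.im)) = 0 := by
      linear_combination (q1 - q2) / 4
    exact (mul_eq_zero.1 this).resolve_left hc0.ne'
  have hX2 : b * (z0.re - c'.re) + d * (z0.im - c'.im) = 0 := by
    have : c * (b * (z0.re - c'.re) + d * (z0.im - c'.im)) = 0 := by
      linear_combination (q3 - q4) / 4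
    exact (mul_eq_zero.1 this).resolve_left hc0.ne'
  have hX : z0.re = c'.re := by
    have : (a * d - b ^ 2) * (z0.re - c'.re) = 0 := by
      linear_combination d * hX1 - b * hX2
    exact sub_eq_zero.1 ((mul_eq_zero.1 this).resolve_left hdet.ne')
  have hY : z0.im = c'.im := by
    have : (a * d - b ^ 2) * (z0.im - c'.im) = 0 := by
      linear_combination a * hX2 - b * hX1
    exact sub_eq_zero.1 ((mul_eq_zero.1 this).resolve_left hdet.ne')
  have hac : a * c ^ 2 = 1 := by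
    rw [hX, hY] at q1
    linear_combination q1
  have hdc : d * c ^ 2 = 1 := by
    rw [hX, hY] at q3
    linear_combination q3
  have hb0 : b = 0 := by
    rw [hX, hY] at q5
    have : b * c ^ 2 = 0 := by
      linear_combination (25 / 24) * q5 - (9 / 24) * hac - (16 / 24) * hdc
    exact (mul_eq_zero.1 this).resolve_right (pow_ne_zero 2 hc0.ne')
  refine ⟨z0, c, hc0, hrange, c * Real.sqrt (1 + η), ?_, fun t ht1 ht2 => ?_⟩
  · have h5 : 1 < Real.sqrt (1 + η) := by
      rw [Real.lt_sqrt (by norm_num)]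
      linarith
    exact lt_mul_of_one_lt_right hc0 h5
  · have h6 : (t / c) ^ 2 < 1 + η := by
      have h7 : t / c < Real.sqrt (1 + η) := by
        rw [div_lt_iff₀ hc0, mul_comm]
        exact ht2
      have h8 : 0 ≤ t / c := div_nonneg (hc0.le.trans ht1) hc0.le
      rw [Real.lt_sqrt h8] at h7
      exact h7
    have h9 : 1 ≤ (t / c) ^ 2 := by
      have : 1 ≤ t / c := by rwa [le_div_iff₀ hc0, one_mul]
      nlinarith
    obtain ⟨κ, hκ⟩ := hl _ h9 h6
    refine ⟨κ, fun x hx => hκ x.re x.im ?_⟩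
    rw [mem_sphere, dist_eq_norm] at hx
    have h10 : (x.re - z0.re) ^ 2 + (x.im - z0.im) ^ 2 = t ^ 2 := by
      rw [← hx, Complex.sq_norm, Complex.normSq_apply]
      simp
      ring
    rw [hb0, ← hX, ← hY, div_pow]
    have hc2 : c ^ 2 ≠ 0 := pow_ne_zero 2 hc0.ne'
    have had : a = 1 / c ^ 2 := by rw [eq_div_iff hc2]; exact hac
    have hdd : d = 1 / c ^ 2 := by rw [eq_div_iff hc2]; exact hdc
    rw [had, hdd, ← h10]
    ring

/-- Let `γ` be an oval run through with speed `v` and angular velocity `w` of the normal, both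
entire functions of time of period `2π`, and let the radius of curvature at time `t` be
`q(t) / b(t)` with small `q` and `b ≢ 0`.  If the outer billiard about `γ` has a nonconstant real
analytic first integral `K` near `γ`, then `γ` is a circle, and `K` is constant on the concentric
circles close to `γ` outside it. -/
theorem result (γ : ℝ → ℂ) (ρ : ℝ → ℝ) (h : IsOval γ ρ) (θ : ℝ → ℝ) (v w : ℂ → ℂ)
    (hm : IsEntireMotion ρ θ v w) (b q : ℂ → ℂ) (hb : IsSmall b) (hq : IsSmall q)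
    (hb0 : ∃ z, b z ≠ 0) (hbq : ∀ t : ℝ, b t * ρ (θ t) = q t)
    (K : ℝ → ℝ → ℝ) (U : Set (ℝ × ℝ)) (hK : IsIntegralNear γ K U) :
    ∃ (z : ℂ) (r : ℝ), 0 < r ∧ Set.range γ = sphere z r ∧
      ∃ R > r, ∀ t : ℝ, r ≤ t → t < R → ∃ κ : ℝ, ∀ x ∈ sphere z t,
        (x.re, x.im) ∈ U ∧ K x.re x.im = κ := by
  obtain ⟨σ, hσ, hσ1, hbT, hqT⟩ := common hb hq
  obtain ⟨m1, m2, m3, m4, m5, m6, m7⟩ := hm
  have hD : TH242.MK.Dat γ ρ θ v w := ⟨m2, m3, m4, m5, m1, m6, m7⟩
  have hOv : H738CZ.IsOval γ ρ := ⟨h.1, h.2.1, h.2.2.1, h.2.2.2⟩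
  obtain ⟨Z, W, Θ, hc, hZ, hW⟩ := hD.curve hOv
  obtain ⟨c, hc'⟩ := TH242.MK.intr_main hOv hD hσ hσ1 hbT hqT hb0 hbq hc fun t0 =>
    TH242.MK.outer_reg hOv (oInt hK) hD.cont hD.sur
      (fun t => (hc.hZ t).differentiableAt) (fun t => (hc.hW t).differentiableAt) hZ hW t0
  exact on_circle h hK hc'

end Pool.Agent.Results.MP_ae5b4e_an.OuterIntrinsic
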