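import Pool.Agent.H185.TC.Main

/-!
# Projective involutions on tangent lines: two leaves on conics

`Y` is a function whose level sets `{Y = c}`, `0 ≤ c ≤ 1`, are closed convex curves foliating a
(possibly very thin) closed exterior collar of the closed convex curve `γ = {Y = 0}`
(`IsCollar Y`); `γ` is arbitrary.  Assume that for every tangent line of `γ` the involution
exchanging the two points of each leaf is projective (`Projective Y p v`), and that two leaves
(`γ` may be one of them) are contained in conics (`InConic`).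

Then all leaves, `γ` included, are ellipses (`IsEllipse`), and they belong to one pencil of conics.
-/

open Pool.Agent.H185.TC

namespace Pool.Agent.Results.MP_ae5b4e_an.TwoConicLeaves

theorem result (Y : ℂ → ℝ) (hY : IsCollar Y)
    (hp : ∀ p v : ℂ, Y p = 0 → v ≠ 0 → fderiv ℝ Y p v = 0 → Projective Y p v)
    (r₁ r₂ : ℝ) (h0 : 0 ≤ r₁) (h12 : r₁ < r₂) (h2 : r₂ ≤ 1)
    (hC1 : InConic {z | Y z = r₁}) (hC2 : InConic {z | Y z = r₂}) :
    ∃ q₀ q₁ : ℂ → ℝ, IsQuad q₀ ∧ IsQuad q₁ ∧ ∀ c : ℝ, 0 ≤ c → c ≤ 1 →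
      IsEllipse {z | Y z = c} ∧ ∃ s : ℝ, {z | Y z = c} = {z | q₀ z = s * q₁ z} :=
  two_conics hY hp h0 h12 h2 hC1 hC2

end Pool.Agent.Results.MP_ae5b4e_an.TwoConicLeaves
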